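import Mathlib

set_option autoImplicit false

namespace Pool.Agent.Results.MP_7fe555_nt.LiminfZero

open Finset Filter

/-- `F a x` is the number of `i ≥ 0` such that the least common multiple of the three consecutive
terms `a_i, a_{i+1}, a_{i+2}` is less than `x`. -/
noncomputable def F (a : ℕ → ℕ) (x : ℝ) : ℕ :=
  {i : ℕ | ((Nat.lcm (a i) (Nat.lcm (a (i + 1)) (a (i + 2))) : ℕ) : ℝ) < x}.ncard

/-- the least common multiple of a window -/
def L (a : ℕ → ℕ) (i : ℕ) : ℕ := Nat.lcm (a i) (Nat.lcm (a (i + 1)) (a (i + 2)))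

lemma lcm_bound {a b c : ℕ} (h0 : 0 < a) (hab : a < b) (hbc : b < c) :
    a ^ 3 ≤ Nat.lcm a (Nat.lcm b c) * (c - a) ^ 3 := by
  have h1 : Nat.gcd b c * Nat.lcm b c = b * c := Nat.gcd_mul_lcm b c
  have h2 : Nat.gcd a (Nat.lcm b c) * Nat.lcm a (Nat.lcm b c) = a * Nat.lcm b c := Nat.gcd_mul_lcm _ _
  have h3 : Nat.gcd a (Nat.lcm b c) ∣ Nat.gcd a b * Nat.gcd a c := 
    (Nat.gcd_dvd_gcd_of_dvd_right a (Nat.lcm_dvd_mul b c)).trans (Nat.gcd_mul_right_dvd_mul_gcd a b c)
  have g1 : Nat.gcd a b ≤ c - a := by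
    have : Nat.gcd a b ∣ b - a := Nat.dvd_sub (Nat.gcd_dvd_right _ _) (Nat.gcd_dvd_left _ _)
    exact (Nat.le_of_dvd (by omega) this).trans (by omega)
  have g2 : Nat.gcd a c ≤ c - a := by
    have : Nat.gcd a c ∣ c - a := Nat.dvd_sub (Nat.gcd_dvd_right _ _) (Nat.gcd_dvd_left _ _)
    exact Nat.le_of_dvd (by omega) this
  have g3 : Nat.gcd b c ≤ c - a := by
    have : Nat.gcd b c ∣ c - b := Nat.dvd_sub (Nat.gcd_dvd_right _ _) (Nat.gcd_dvd_left _ _)
    exact (Nat.le_of_dvd (by omega) this).trans (by omega)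
  have h4 : Nat.gcd a (Nat.lcm b c) ≤ Nat.gcd a b * Nat.gcd a c := 
    Nat.le_of_dvd (Nat.mul_pos (Nat.gcd_pos_of_pos_left _ h0) (Nat.gcd_pos_of_pos_left _ h0)) h3
  calc a ^ 3 = a * (a * a) := by ring
    _ ≤ a * (b * c) := by gcongr; omega
    _ = Nat.gcd b c * (a * Nat.lcm b c) := by rw [← h1]; ring
    _ = Nat.gcd b c * (Nat.gcd a (Nat.lcm b c) * Nat.lcm a (Nat.lcm b c)) := by rw [h2]
    _ ≤ (c - a) * (((c - a) * (c - a)) * Nat.lcm a (Nat.lcm b c)) := by
        refine Nat.mul_le_mul g3 (Nat.mul_le_mul_right _ (h4.trans (Nat.mul_le_mul g1 g2)))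
    _ = _ := by ring

lemma geom_bound (T : Finset ℕ) (y : ℝ) (hy : 0 < y) (h : ∀ r ∈ T, y ≤ 2 ^ r) :
    ∑ r ∈ T, (1 / 2 : ℝ) ^ r ≤ 2 * min 1 (1 / y) := by
  rcases T.eq_empty_or_nonempty with rfl | hT
  · simp; positivity
  · set r0 := T.min' hT with hr0
    have hsub : T ⊆ Ico r0 (T.max' hT + 1) := by
      intro r hr
      rw [Finset.mem_Ico]
      exact ⟨T.min'_le r hr, Nat.lt_succ_of_le (T.le_max' r hr)⟩
    have h1 : ∑ r ∈ T, (1 / 2 : ℝ) ^ r ≤ ∑ r ∈ Ico r0 (T.max' hT + 1), (1 / 2 : ℝ) ^ r :=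
      Finset.sum_le_sum_of_subset_of_nonneg hsub fun _ _ _ => by positivity
    have h2 : ∀ n m : ℕ, ∑ r ∈ Ico n m, (1 / 2 : ℝ) ^ r ≤ 2 * (1 / 2 : ℝ) ^ n := by
      intro n m
      rcases le_total m n with hmn | hmn
      · rw [Finset.Ico_eq_empty_of_le hmn]; simp
      · have : ∀ m, n ≤ m → ∑ r ∈ Ico n m, (1 / 2 : ℝ) ^ r = 2 * (1 / 2 : ℝ) ^ n - 2 * (1 / 2 : ℝ) ^ m := by
          intro m hm
          induction m, hm using Nat.le_induction with
          | base => simp
          | succ m hm ih => rw [Finset.sum_Ico_succ_top hm, ih, pow_succ]; ring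
        rw [this m hmn]
        have : (0 : ℝ) ≤ 2 * (1 / 2 : ℝ) ^ m := by positivity
        linarith
    refine h1.trans ((h2 _ _).trans ?_)
    have h3 : y ≤ 2 ^ r0 := h r0 (T.min'_mem hT)
    have h4 : (1 / 2 : ℝ) ^ r0 ≤ 1 / y := by
      rw [one_div_pow]
      exact one_div_le_one_div_of_le hy h3
    have h5 : (1 / 2 : ℝ) ^ r0 ≤ 1 := pow_le_one₀ (by norm_num) (by norm_num)
    have := le_min h5 h4
    linarith

lemma log_bound {a c : ℝ} (ha : 0 < a) (hac : a < c) : min 1 (1 / (a / (c - a))) ≤ 2 * (Real.log c - Real.log a) := by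
  have hc : 0 < c := ha.trans hac
  have h1 : 1 - a / c ≤ Real.log c - Real.log a := by
    have := Real.log_le_sub_one_of_pos (show 0 < a / c by positivity)
    rw [Real.log_div ha.ne' hc.ne'] at this
    linarith
  have h2 : 1 - a / c = (c - a) / c := by field_simp
  rw [h2] at h1
  rw [one_div_div]
  rcases le_total (c - a) a with h | h
  · refine (min_le_right _ _).trans ?_
    have h3 : (c - a) / a ≤ 2 * ((c - a) / c) := by
      rw [← mul_div_assoc, div_le_div_iff₀ ha hc]
      nlinarith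
    linarith
  · refine (min_le_left _ _).trans ?_
    have h3 : 1 ≤ 2 * ((c - a) / c) := by
      rw [← mul_div_assoc, le_div_iff₀ hc]
      linarith
    linarith

/-- main averaging bound -/
lemma main_bound (a : ℕ → ℕ) (ha : StrictMono a) (h0 : 0 < a 0) (R : ℕ) (hR : 1 ≤ R) :
    ∑ r ∈ Ico R (2 * R), (F a (8 ^ r) : ℝ) * (1 / 2 : ℝ) ^ r ≤ 16 * R * Real.log 8 := by
  classical
  have hpos : ∀ i, 0 < a i := fun i => lt_of_lt_of_le h0 (ha.monotone (Nat.zero_le i))
  have hid : ∀ i, i ≤ a i := ha.id_le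
  set M := 8 ^ (2 * R) with hM
  -- index set: windows with largest term less than `M`
  set I := (range M).filter (fun i => a (i + 2) < M) with hI
  have hL : ∀ i, a (i + 2) ≤ L a i := by
    intro i
    unfold L
    apply Nat.le_of_dvd
    · exact Nat.lcm_pos (hpos _) (Nat.lcm_pos (hpos _) (hpos _))
    · exact (Nat.dvd_lcm_right _ _).trans (Nat.dvd_lcm_right _ _)
  have hF : ∀ r ∈ Ico R (2 * R), (F a (8 ^ r) : ℝ) = ∑ i ∈ I, if L a i < 8 ^ r then (1 : ℝ) else 0 := by
    intro r hr
    rw [Finset.mem_Ico] at hr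
    have h1 : {i : ℕ | ((Nat.lcm (a i) (Nat.lcm (a (i + 1)) (a (i + 2))) : ℕ) : ℝ) < 8 ^ r} = 
        ((I.filter fun i => L a i < 8 ^ r : Finset ℕ) : Set ℕ) := by
      ext i
      simp only [Set.mem_ofPred_eq, Finset.coe_filter, hI, Finset.mem_filter, Finset.mem_range, L]
      constructor
      · intro h
        have h2 : Nat.lcm (a i) (Nat.lcm (a (i + 1)) (a (i + 2))) < 8 ^ r := by exact_mod_cast h
        have h3 := hL i
        have h4 : 8 ^ r ≤ M := Nat.pow_le_pow_right (by norm_num) hr.2.le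
        have h5 := hid (i + 2)
        unfold L at h3
        exact ⟨⟨by omega, by omega⟩, h2⟩
      · rintro ⟨_, h⟩
        exact_mod_cast h
    rw [F, h1, Set.ncard_coe_finset, Finset.card_filter]
    push_cast
    rfl
  calc ∑ r ∈ Ico R (2 * R), (F a (8 ^ r) : ℝ) * (1 / 2 : ℝ) ^ r 
      = ∑ r ∈ Ico R (2 * R), ∑ i ∈ I, (if L a i < 8 ^ r then (1 / 2 : ℝ) ^ r else 0) := by
        refine Finset.sum_congr rfl fun r hr => ?_
        rw [hF r hr, Finset.sum_mul]
        refine Finset.sum_congr rfl fun i _ => ?_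
        split_ifs <;> simp
    _ = ∑ i ∈ I, ∑ r ∈ (Ico R (2 * R)).filter (fun r => L a i < 8 ^ r), (1 / 2 : ℝ) ^ r := by
        rw [Finset.sum_comm]
        refine Finset.sum_congr rfl fun i _ => ?_
        rw [Finset.sum_filter]
    _ ≤ ∑ i ∈ I, 4 * (Real.log (a (i + 2)) - Real.log (a i)) := by
        refine Finset.sum_le_sum fun i _ => ?_
        have hai : (0 : ℝ) < a i := by exact_mod_cast hpos i
        have hlt : a i < a (i + 2) := ha (by omega)
        have hlt' : (a i : ℝ) < a (i + 2) := by exact_mod_cast hlt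
        have hy : (0 : ℝ) < (a i : ℝ) / ((a (i + 2) : ℝ) - a i) := div_pos hai (by linarith)
        refine (geom_bound _ _ hy ?_).trans ?_
        · intro r hr
          rw [Finset.mem_filter] at hr
          have hb := lcm_bound (hpos i) (ha (Nat.lt_succ_self i)) (ha (Nat.lt_succ_self (i + 1)))
          have h1 : a i ^ 3 ≤ 8 ^ r * (a (i + 2) - a i) ^ 3 := 
            hb.trans (Nat.mul_le_mul_right _ hr.2.le)
          have h2 : ((a i : ℝ)) ^ 3 ≤ (2 ^ r * ((a (i + 2) : ℝ) - a i)) ^ 3 := by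
            have h3 : ((a i ^ 3 : ℕ) : ℝ) ≤ ((8 ^ r * (a (i + 2) - a i) ^ 3 : ℕ) : ℝ) := by exact_mod_cast h1
            push_cast [Nat.cast_sub hlt.le] at h3
            calc (a i : ℝ) ^ 3 ≤ 8 ^ r * ((a (i + 2) : ℝ) - a i) ^ 3 := h3
              _ = _ := by
                rw [mul_pow, ← pow_mul, mul_comm r 3, pow_mul]
                norm_num
          have h3 : (a i : ℝ) ≤ 2 ^ r * ((a (i + 2) : ℝ) - a i) := 
            le_of_pow_le_pow_left₀ (by norm_num) (mul_nonneg (by positivity) (by linarith)) h2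
          rw [div_le_iff₀ (by linarith)]
          exact h3
        · have := log_bound hai hlt'
          linarith
    _ ≤ 16 * R * Real.log 8 := by
        -- telescoping
        have htel : ∀ K : ℕ, ∑ i ∈ range K, (Real.log (a (i + 2)) - Real.log (a i)) = 
            Real.log (a (K + 1)) + Real.log (a K) - Real.log (a 1) - Real.log (a 0) := by
          intro K
          induction K with
          | zero => simp
          | succ K ih => rw [Finset.sum_range_succ, ih]; ring
        -- I is an initial segment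
        rw [← Finset.mul_sum]
        have hIr : ∃ K, I = range K := by
          have hex : ∃ i, M ≤ a (i + 2) := ⟨M, (hid (M + 2)).trans' (by omega)⟩
          refine ⟨Nat.find hex, ?_⟩
          ext i
          rw [hI, Finset.mem_filter, Finset.mem_range, Finset.mem_range]
          constructor
          · rintro ⟨_, h⟩
            by_contra hcon
            push Not at hcon
            have h1 := Nat.find_spec hex
            have h2 : a (Nat.find hex + 2) ≤ a (i + 2) := ha.monotone (by omega)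
            omega
          · intro h
            have h1 := Nat.find_min hex h
            push Not at h1
            have h2 := hid (i + 2)
            exact ⟨by omega, h1⟩
        obtain ⟨K, hK⟩ := hIr
        rw [hK, htel]
        have hlog : ∀ i, 0 ≤ Real.log (a i) := fun i => Real.log_nonneg (by exact_mod_cast hpos i)
        rcases Nat.eq_zero_or_pos K with h | h
        · subst h
          have : (0 : ℝ) ≤ 16 * R * Real.log 8 := by
            have : 0 < Real.log 8 := Real.log_pos (by norm_num)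
            positivity
          simp
          linarith [hlog 1, hlog 0]
        · have hmem : K - 1 ∈ I := by rw [hK]; simp; omega
          rw [hI, Finset.mem_filter] at hmem
          have h1 : a (K + 1) < M := by
            have := hmem.2
            rwa [show K - 1 + 2 = K + 1 by omega] at this
          have h2 : a K < M := lt_of_lt_of_le (ha (Nat.lt_succ_self K)) h1.le
          have hlM : Real.log (M : ℝ) = 2 * R * Real.log 8 := by
            rw [hM]; push_cast; rw [Real.log_pow]; push_cast; ring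
          have h3 : Real.log (a (K + 1)) ≤ 2 * R * Real.log 8 := by
            rw [← hlM]
            exact Real.log_le_log (by exact_mod_cast hpos _) (by exact_mod_cast h1.le)
          have h4 : Real.log (a K) ≤ 2 * R * Real.log 8 := by
            rw [← hlM]
            exact Real.log_le_log (by exact_mod_cast hpos _) (by exact_mod_cast h2.le)
          linarith [hlog 1, hlog 0]

lemma not_eventually (a : ℕ → ℕ) (ha : StrictMono a) (h0 : 0 < a 0) (b : ℝ) (hb : 0 < b)
    (h : ∀ᶠ x : ℝ in atTop, b ≤ F a x / (x ^ (1 / 3 : ℝ) * Real.log x)) : False := by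
  have hl8 : 0 < Real.log 8 := Real.log_pos (by norm_num)
  have htend : Tendsto (fun r : ℕ => (8 : ℝ) ^ r) atTop atTop := tendsto_pow_atTop_atTop_of_one_lt (by norm_num)
  obtain ⟨r0, hr0⟩ := eventually_atTop.1 (htend.eventually h)
  obtain ⟨R1, hR1⟩ := exists_nat_gt (16 / b)
  set R := max (max r0 R1) 1 with hR
  have hRr0 : r0 ≤ R := le_trans (le_max_left _ _) (le_max_left _ _)
  have hRR1 : R1 ≤ R := le_trans (le_max_right _ _) (le_max_left _ _)
  have hR1' : 1 ≤ R := le_max_right _ _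
  have hmain := main_bound a ha h0 R hR1'
  have hlow : ∑ r ∈ Ico R (2 * R), b * R * Real.log 8 ≤ ∑ r ∈ Ico R (2 * R), (F a (8 ^ r) : ℝ) * (1 / 2 : ℝ) ^ r := by
    refine Finset.sum_le_sum fun r hr => ?_
    rw [Finset.mem_Ico] at hr
    have h1 := hr0 r (by omega)
    have hr1 : (1 : ℝ) ≤ r := by exact_mod_cast (by omega : 1 ≤ r)
    have h2 : ((8 : ℝ) ^ r) ^ (1 / 3 : ℝ) = 2 ^ r := by
      rw [show (8 : ℝ) = 2 ^ 3 by norm_num, ← pow_mul, mul_comm, pow_mul, ← Real.rpow_natCast (((2 : ℝ) ^ r)) 3,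
        ← Real.rpow_mul (by positivity)]
      norm_num
    rw [h2, Real.log_pow, le_div_iff₀ (by positivity)] at h1
    have h3 : (2 : ℝ) ^ r * (1 / 2 : ℝ) ^ r = 1 := by rw [← mul_pow]; norm_num
    have h4 : (R : ℝ) ≤ r := by exact_mod_cast hr.1
    calc b * R * Real.log 8 ≤ b * r * Real.log 8 := by gcongr
      _ = b * (2 ^ r * (r * Real.log 8)) * (1 / 2 : ℝ) ^ r := by
          rw [show b * (2 ^ r * (r * Real.log 8)) * (1 / 2 : ℝ) ^ r = b * r * Real.log 8 * (2 ^ r * (1 / 2 : ℝ) ^ r) by ring, h3]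
          ring
      _ ≤ _ := by gcongr
  have h5 : ∑ r ∈ Ico R (2 * R), b * R * Real.log 8 = R * (b * R * Real.log 8) := by
    rw [Finset.sum_const, Nat.card_Ico, nsmul_eq_mul]
    congr 2
    omega
  rw [h5] at hlow
  have h6 : (R : ℝ) * (b * R * Real.log 8) ≤ 16 * R * Real.log 8 := hlow.trans hmain
  have hRp : (0 : ℝ) < R := by exact_mod_cast hR1'
  have h7 : b * R ≤ 16 := by
    have h8 : (R : ℝ) * Real.log 8 * (b * R) ≤ (R : ℝ) * Real.log 8 * 16 := by linarith
    exact le_of_mul_le_mul_left h8 (by positivity)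
  have h8 : 16 / b < R := lt_of_lt_of_le hR1 (by exact_mod_cast hRR1)
  rw [div_lt_iff₀ hb] at h8
  linarith

/-- For every infinite strictly increasing sequence of positive integers the `liminf` of
`F(A, x, 3) / (x ^ (1 / 3) * ln x)` as `x → ∞` is `0`. -/
theorem result : ∀ a : ℕ → ℕ, StrictMono a → 0 < a 0 →
    Filter.liminf (fun x : ℝ => (F a x : ℝ) / (x ^ (1 / 3 : ℝ) * Real.log x)) atTop = 0 := by
  intro a ha h0
  rw [Filter.liminf_eq]
  have hz : (0 : ℝ) ∈ {b : ℝ | ∀ᶠ x : ℝ in atTop, b ≤ F a x / (x ^ (1 / 3 : ℝ) * Real.log x)} := by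
    filter_upwards [eventually_ge_atTop 1] with x hx
    have : 0 ≤ Real.log x := Real.log_nonneg hx
    positivity
  have hle : ∀ b ∈ {b : ℝ | ∀ᶠ x : ℝ in atTop, b ≤ F a x / (x ^ (1 / 3 : ℝ) * Real.log x)}, b ≤ 0 := by
    intro b hb
    by_contra hcon
    push Not at hcon
    exact not_eventually a ha h0 b hcon hb
  exact le_antisymm (csSup_le ⟨0, hz⟩ hle) (le_csSup ⟨0, hle⟩ hz)

end Pool.Agent.Results.MP_7fe555_nt.LiminfZero
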